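import Pool.Agent.H54Sharp.Stmt

set_option autoImplicit false

namespace Pool.Agent.Helper18.Sharp

open Finset Pool.Agent.H54Sharp

theorem sum_up (f : ℕ → ℝ) (T : ℕ) (h0 : ∀ s ≤ T, 0 < f s) (hm : ∀ s < T, f s ≤ f (s + 1)) :
    ∑ s ∈ range T, max 0 (Real.log (f (s + 1)) - Real.log (f s)) =
      Real.log (f T) - Real.log (f 0) := by
  rw [← Finset.sum_range_sub (fun s => Real.log (f s))]
  apply sum_congr rfl
  intro s hs
  have hs' := mem_range.mp hs
  rw [max_eq_right]
  have := Real.log_le_log (h0 s hs'.le) (hm s hs')
  linarith

theorem sum_down (f : ℕ → ℝ) (T : ℕ) (h0 : ∀ s ≤ T, 0 < f s) (hm : ∀ s < T, f (s + 1) ≤ f s) :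
    ∑ s ∈ range T, max 0 (Real.log (f (s + 1)) - Real.log (f s)) = 0 := by
  apply sum_eq_zero
  intro s hs
  have hs' := mem_range.mp hs
  rw [max_eq_left]
  have := Real.log_le_log (h0 (s + 1) hs') (hm s hs')
  linarith

variable {m J : ℕ} {L R : ℕ → ℝ} {a : ℕ → ℕ}

theorem L_ge (hB : Bands m J L R a) : ∀ g ≤ J, L 0 ≤ L g := by
  intro g
  induction g with
  | zero => intro _; exact le_rfl
  | succ g ih => intro hg; exact (ih (by omega)).trans (hB.mono g (by omega))

theorem R_ge (hB : Bands m J L R a) : ∀ d g, g + d = J → L 0 ≤ R g := by
  intro d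
  induction d with
  | zero =>
    intro g hg
    have : g = J := by omega
    subst this
    rw [← hB.meet]
    exact L_ge hB _ le_rfl
  | succ d ih =>
    intro g hg
    exact (ih (g + 1) (by omega)).trans (hB.anti g (by omega))

theorem cellLeft_ge (hB : Bands m J L R a) {g : ℕ} (hg : g < J) (c : ℕ) :
    L 0 ≤ cellLeft m L R a g c := by
  have hM := hB.mpos g hg
  have he : 0 ≤ Mg L R g / m := by positivity
  unfold cellLeft
  split_ifs with h
  · have := L_ge hB g hg.le
    have : 0 ≤ (c : ℝ) * (Mg L R g / m) := by positivity
    linarith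
  · have := R_ge hB (J - (g + 1)) (g + 1) (by omega)
    have h1 : (a g : ℝ) ≤ c := by exact_mod_cast not_lt.mp h
    have : 0 ≤ ((c : ℝ) - a g) * (Mg L R g / m) := mul_nonneg (by linarith) he
    linarith

theorem Xg_ge (hB : Bands m J L R a) {g : ℕ} (hg : g ≤ J) : L 0 ≤ Xg L R g := by
  unfold Xg
  have : 0 ≤ ∑ h ∈ range g, Mg L R h :=
    sum_nonneg fun h hh => (hB.mpos h (by have := mem_range.mp hh; omega)).le
  linarith

/-- the logarithmic lengths of the cells sum to `Wg` -/
theorem sum_cells (hm : 1 ≤ m) (hB : Bands m J L R a) {g : ℕ} (hg : g < J) :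
    ∑ c ∈ range m, (Real.log (cellLeft m L R a g c + Mg L R g / m) -
      Real.log (cellLeft m L R a g c)) = Wg L R g := by
  have hm' : (0 : ℝ) < m := by exact_mod_cast hm
  have hale := hB.ale g hg
  obtain ⟨b, hb⟩ : ∃ b, m = a g + b := ⟨m - a g, by omega⟩
  have hsplit : range m = range (a g) ∪ (range b).map (addLeftEmbedding (a g)) := by
    conv_lhs => rw [hb]
    exact range_add_eq_union (a g) b
  have hdisj : Disjoint (range (a g)) ((range b).map (addLeftEmbedding (a g))) :=
    disjoint_range_addLeftEmbedding (a g) (range b)
  rw [hsplit, sum_union hdisj, sum_map]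
  set e := Mg L R g / m with he
  have hleft : (a g : ℝ) * e = L (g + 1) - L g := by
    have := hB.left g hg
    rw [he, mul_div_assoc', ← this]
    field_simp
  have hright : (b : ℝ) * e = R g - R (g + 1) := by
    have h1 : ((m : ℝ)) * e = Mg L R g := by
      rw [he]
      field_simp
    have h2 : (b : ℝ) = m - a g := by
      have : (m : ℝ) = a g + b := by exact_mod_cast hb
      linarith
    rw [h2, sub_mul, h1, hleft]
    unfold Mg
    ring
  have h1 : ∑ c ∈ range (a g), (Real.log (cellLeft m L R a g c + e) -
      Real.log (cellLeft m L R a g c)) = Real.log (L (g + 1)) - Real.log (L g) := by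
    have h2 : ∀ c ∈ range (a g), Real.log (cellLeft m L R a g c + e) -
        Real.log (cellLeft m L R a g c) =
        Real.log (L g + ((c + 1 : ℕ) : ℝ) * e) - Real.log (L g + (c : ℝ) * e) := by
      intro c hc
      have hc' := mem_range.mp hc
      unfold cellLeft
      rw [if_pos hc', ← he]
      congr 2
      push_cast
      ring
    rw [sum_congr rfl h2, Finset.sum_range_sub (fun c : ℕ => Real.log (L g + (c : ℝ) * e)), hleft]
    simp
  have h3 : ∑ x ∈ range b, (Real.log (cellLeft m L R a g ((addLeftEmbedding (a g)) x) + e) -
      Real.log (cellLeft m L R a g ((addLeftEmbedding (a g)) x))) =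
      Real.log (R g) - Real.log (R (g + 1)) := by
    have h2 : ∀ x ∈ range b, Real.log (cellLeft m L R a g ((addLeftEmbedding (a g)) x) + e) -
        Real.log (cellLeft m L R a g ((addLeftEmbedding (a g)) x)) =
        Real.log (R (g + 1) + ((x + 1 : ℕ) : ℝ) * e) - Real.log (R (g + 1) + (x : ℝ) * e) := by
      intro x hx
      simp only [addLeftEmbedding_apply]
      unfold cellLeft
      rw [if_neg (by omega), ← he]
      push_cast
      congr 2 <;> ring
    rw [sum_congr rfl h2, Finset.sum_range_sub (fun c : ℕ => Real.log (R (g + 1) + (c : ℝ) * e)),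
      hright]
    simp
  rw [h1, h3]
  unfold Wg
  ring

/-- summing over the columns of one block: rotation of the cells -/
theorem sum_rot (hm : 1 ≤ m) (F : ℕ → ℝ) (i : ℕ) :
    ∑ c ∈ range m, F ((c + i) % m) = ∑ c ∈ range m, F c := by
  apply sum_nbij' (fun c => (c + i) % m) (fun c => (c + (m - i % m)) % m)
  · intro c _
    exact mem_range.mpr (Nat.mod_lt _ hm)
  · intro c _
    exact mem_range.mpr (Nat.mod_lt _ hm)
  · intro c hc
    have hc' := mem_range.mp hc
    have h1 : i % m < m := Nat.mod_lt _ hm
    rw [Nat.mod_add_mod]
    have h2 : c + i + (m - i % m) = c + m * (i / m + 1) := by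
      have := Nat.div_add_mod i m
      rw [mul_add, mul_one]
      omega
    rw [h2, Nat.add_mul_mod_self_left, Nat.mod_eq_of_lt hc']
  · intro c hc
    have hc' := mem_range.mp hc
    have h1 : i % m < m := Nat.mod_lt _ hm
    rw [Nat.mod_add_mod]
    have h2 : c + (m - i % m) + i = c + m * (i / m + 1) := by
      have := Nat.div_add_mod i m
      rw [mul_add, mul_one]
      omega
    rw [h2, Nat.add_mul_mod_self_left, Nat.mod_eq_of_lt hc']
  · intro c _
    rfl

/-- a sum over `range (m * t)` by blocks -/
theorem sum_blocks (F : ℕ → ℝ) (m t : ℕ) :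
    ∑ k ∈ range (m * t), F k = ∑ j ∈ range t, ∑ c ∈ range m, F (m * j + c) := by
  induction t with
  | zero => simp
  | succ t ih =>
    rw [mul_add, mul_one, sum_range_add, ih, sum_range_succ]

theorem move_row : MoveRow := by
  intro m h r S J L R a hm hS hh hr hB g hg i hi
  have hm' : (0 : ℝ) < m := by exact_mod_cast hm
  have hS' : (0 : ℝ) < S := by exact_mod_cast hS
  have hM := hB.mpos g hg
  have hL0 := hB.pos
  set e := Mg L R g / m with he
  have he0 : 0 < e := by positivity
  have hq : 0 < e / S := by positivity
  have hSq : (S : ℝ) * (e / S) = e := by field_simp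
  have hcastS : ((S - 1 : ℕ) : ℝ) = (S : ℝ) - 1 := by
    rw [Nat.cast_sub hS]
    simp
  rw [sum_comm, sum_range_add]
  -- main columns
  have hmain : ∑ k ∈ range (m * (2 * h)), ∑ s ∈ range (S - 1),
      max 0 (Real.log (corner m h S L R a g i (s + 1) k) -
        Real.log (corner m h S L R a g i s k)) ≤ h * Wg L R g := by
    rw [sum_blocks]
    have hblock : ∀ j ∈ range (2 * h), ∑ c ∈ range m, ∑ s ∈ range (S - 1),
        max 0 (Real.log (corner m h S L R a g i (s + 1) (m * j + c)) -
          Real.log (corner m h S L R a g i s (m * j + c))) ≤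
        if j < h then Wg L R g else 0 := by
      intro j hj
      have hj' := mem_range.mp hj
      have hdiv : ∀ c < m, (m * j + c) / m = j := by
        intro c hc
        rw [Nat.mul_add_div hm, Nat.div_eq_of_lt hc, add_zero]
      have hmod : ∀ c < m, (m * j + c) % m = c := by
        intro c hc
        rw [Nat.mul_add_mod, Nat.mod_eq_of_lt hc]
      have hlt : ∀ c < m, m * j + c < m * (2 * h) := by
        intro c hc
        calc m * j + c < m * j + m := by omega
          _ = m * (j + 1) := by ring
          _ ≤ m * (2 * h) := Nat.mul_le_mul_left _ hj'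
      split_ifs with hjh
      · rw [← sum_cells hm hB hg, ← sum_rot hm (fun c => Real.log (cellLeft m L R a g c +
          Mg L R g / m) - Real.log (cellLeft m L R a g c)) i]
        apply sum_le_sum
        intro c hc
        have hc' := mem_range.mp hc
        have hcl := cellLeft_ge hB hg ((c + i) % m)
        have hcor : ∀ s, corner m h S L R a g i s (m * j + c) =
            cellLeft m L R a g ((c + i) % m) + ((s : ℝ) + 1) * (e / S) := by
          intro s
          unfold corner
          rw [if_pos (hlt c hc'), hdiv c hc', hmod c hc', if_pos hjh]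
        simp only [hcor]
        have hsum := sum_up (fun s => cellLeft m L R a g ((c + i) % m) + ((s : ℝ) + 1) * (e / S))
          (S - 1) (fun s _ => by
            have : 0 < ((s : ℝ) + 1) * (e / S) := by positivity
            linarith) (fun s _ => by
            push_cast
            nlinarith)
        simp only [Nat.cast_add, Nat.cast_one] at hsum ⊢
        rw [hsum, hcastS]
        have e1 : ((S : ℝ) - 1 + 1) * (e / S) = e := by
          rw [sub_add_cancel, hSq]
        rw [e1, ← he]
        have e2 : Real.log (cellLeft m L R a g ((c + i) % m)) ≤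
            Real.log (cellLeft m L R a g ((c + i) % m) + (((0 : ℕ) : ℝ) + 1) * (e / S)) := by
          apply Real.log_le_log (by linarith)
          simp only [Nat.cast_zero, zero_add, one_mul]
          linarith
        linarith
      · apply le_of_eq
        apply sum_eq_zero
        intro c hc
        have hc' := mem_range.mp hc
        have hcl := cellLeft_ge hB hg ((c + (m - i)) % m)
        have hcor : ∀ s, corner m h S L R a g i s (m * j + c) =
            cellLeft m L R a g ((c + (m - i)) % m) + ((S : ℝ) - s) * (e / S) := by
          intro s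
          unfold corner
          rw [if_pos (hlt c hc'), hdiv c hc', hmod c hc', if_neg hjh]
        simp only [hcor]
        exact sum_down (fun s => cellLeft m L R a g ((c + (m - i)) % m) + ((S : ℝ) - s) * (e / S))
          (S - 1) (fun s hs => by
            have h1 : (s : ℝ) ≤ S - 1 := by rw [← hcastS]; exact_mod_cast hs
            have h2 : 0 < ((S : ℝ) - s) * (e / S) := mul_pos (by linarith) hq
            linarith) (fun s _ => by
            push_cast
            nlinarith)
    refine (sum_le_sum hblock).trans (le_of_eq ?_)
    rw [sum_ite, sum_const_zero, add_zero, sum_const, nsmul_eq_mul]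
    congr 1
    have : (range (2 * h)).filter (fun j => j < h) = range h := by
      ext j
      simp only [mem_filter, mem_range]
      omega
    rw [this, card_range]
  have hextra : ∑ x ∈ range r, ∑ s ∈ range (S - 1),
      max 0 (Real.log (corner m h S L R a g i (s + 1) (m * (2 * h) + x)) -
        Real.log (corner m h S L R a g i s (m * (2 * h) + x))) ≤
      2 * h * Mg L R g / (m * L 0) := by
    have hone : ∀ x ∈ range r, ∑ s ∈ range (S - 1),
        max 0 (Real.log (corner m h S L R a g i (s + 1) (m * (2 * h) + x)) -
          Real.log (corner m h S L R a g i s (m * (2 * h) + x))) ≤ e / L 0 := by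
      intro x _
      have hX := Xg_ge hB hg.le
      by_cases hx : x % 2 = 0
      · have hcor : ∀ s, corner m h S L R a g i s (m * (2 * h) + x) =
            Xg L R g + ((i : ℝ) * S + s + 1) * (e / S) := by
          intro s
          unfold corner
          rw [if_neg (by omega), Nat.add_sub_cancel_left, if_pos hx]
        simp only [hcor]
        have hi0 : 0 ≤ (i : ℝ) * S := by positivity
        have hsum := sum_up (fun s => Xg L R g + ((i : ℝ) * S + s + 1) * (e / S)) (S - 1)
          (fun s _ => by
            have : 0 < ((i : ℝ) * S + s + 1) * (e / S) := by positivity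
            linarith) (fun s _ => by
            push_cast
            nlinarith)
        simp only [Nat.cast_add, Nat.cast_one] at hsum ⊢
        rw [hsum, hcastS]
        set z := Xg L R g + (i : ℝ) * e with hz
        have hz0 : L 0 ≤ z := by
          have : 0 ≤ (i : ℝ) * e := by positivity
          linarith
        have e1 : Xg L R g + ((i : ℝ) * S + ((S : ℝ) - 1) + 1) * (e / S) = z + e := by
          rw [hz]
          field_simp
          ring
        have e2 : z ≤ Xg L R g + ((i : ℝ) * S + ((0 : ℕ) : ℝ) + 1) * (e / S) := by
          have : ((i : ℝ) * S + ((0 : ℕ) : ℝ) + 1) * (e / S) = i * e + e / S := by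
            field_simp
            simp
          rw [this, hz]
          linarith
        rw [e1]
        have e3 : Real.log z ≤ Real.log (Xg L R g + ((i : ℝ) * S + ((0 : ℕ) : ℝ) + 1) * (e / S)) :=
          Real.log_le_log (by linarith) e2
        have e4 : Real.log (z + e) - Real.log z ≤ e / z := by
          have h2 : 0 < z := by linarith
          have h1 : z + e = z * (1 + e / z) := by
            field_simp
          rw [h1, Real.log_mul h2.ne' (by positivity)]
          have := Real.log_le_sub_one_of_pos (show 0 < 1 + e / z by positivity)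
          linarith
        have e5 : e / z ≤ e / L 0 := by
          apply div_le_div_of_nonneg_left he0.le hL0 hz0
        linarith
      · have hcor : ∀ s, corner m h S L R a g i s (m * (2 * h) + x) =
            Xg L R g + (((m : ℝ) - 1 - i) * S + (S - s)) * (e / S) := by
          intro s
          unfold corner
          rw [if_neg (by omega), Nat.add_sub_cancel_left, if_neg hx]
        simp only [hcor]
        have hi1 : (i : ℝ) + 1 ≤ m := by exact_mod_cast hi
        have hi0 : 0 ≤ ((m : ℝ) - 1 - i) * S := mul_nonneg (by linarith) hS'.le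
        have hd := sum_down (fun s => Xg L R g + (((m : ℝ) - 1 - i) * S + (S - s)) * (e / S)) (S - 1)
          (fun s hs => by
            have h1 : (s : ℝ) ≤ S - 1 := by rw [← hcastS]; exact_mod_cast hs
            have h2 : 0 < (((m : ℝ) - 1 - i) * S + (S - s)) * (e / S) := mul_pos (by linarith) hq
            linarith) (fun s _ => by
            push_cast
            nlinarith)
        rw [hd]
        positivity
    refine (sum_le_sum hone).trans ?_
    rw [sum_const, card_range, nsmul_eq_mul, he]
    have hr' : (r : ℝ) ≤ 2 * h := by exact_mod_cast hr.le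
    have : (r : ℝ) * (Mg L R g / m / L 0) ≤ 2 * h * (Mg L R g / m / L 0) :=
      mul_le_mul_of_nonneg_right hr' (by positivity)
    refine this.trans (le_of_eq ?_)
    field_simp
  exact add_le_add hmain hextra

end Pool.Agent.Helper18.Sharp
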