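import Pool.Agent.Helper89.SH.Stmt

set_option autoImplicit false

namespace Pool.Agent.Helper18.Sharp

open Finset MeasureTheory Pool.Agent.Helper43.Copula Pool.Agent.Helper3.Cop
  Pool.Agent.Helper45.CR Pool.Agent.Helper89.SH

/-! ### grid sums -/

/-- kernel on the positive integers -/
noncomputable def Gk (x : ℝ) (b v : ℕ) : ℝ :=
  if v = 0 then 0 else Real.exp (-x * |Real.log b - Real.log v|)

theorem Gk_nonneg (x : ℝ) (b v : ℕ) : 0 ≤ Gk x b v := by
  unfold Gk
  split_ifs
  · exact le_rfl
  · exact (Real.exp_pos _).le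

theorem sum_low (x : ℝ) (hx : 0 ≤ x) : ∀ b : ℕ, 1 ≤ b →
    ∑ v ∈ range b, (if v = 0 then 0 else Real.exp (x * Real.log v)) ≤
      Real.exp ((x + 1) * Real.log b) / (x + 1) := by
  intro b
  induction b with
  | zero => intro h; omega
  | succ b ih =>
    intro _
    have hx1 : 0 < x + 1 := by linarith
    rcases Nat.eq_zero_or_pos b with hb | hb
    · subst hb
      simp
      positivity
    · rw [sum_range_succ, if_neg (by omega)]
      have h1 := ih hb
      have hb' : (0 : ℝ) < b := by exact_mod_cast hb
      have h2 : Real.exp (x * Real.log b) = Real.exp ((x + 1) * Real.log b) / b := by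
        rw [add_mul, one_mul, Real.exp_add, Real.exp_log hb']
        field_simp
      have h3 : Real.exp ((x + 1) * Real.log b) * (1 + (x + 1) / b) ≤
          Real.exp ((x + 1) * Real.log ((b + 1 : ℕ) : ℝ)) := by
        have h4 : ((b + 1 : ℕ) : ℝ) = b * (1 + 1 / b) := by
          push_cast
          field_simp
        have h6 : (x + 1) * (Real.log b + Real.log (1 + 1 / (b : ℝ))) =
            (x + 1) * Real.log b + (x + 1) * Real.log (1 + 1 / (b : ℝ)) := by ring
        rw [h4, Real.log_mul hb'.ne' (by positivity), h6, Real.exp_add]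
        apply mul_le_mul_of_nonneg_left _ (Real.exp_pos _).le
        have h5 := one_add_mul_self_le_rpow_one_add (s := 1 / (b : ℝ)) (p := x + 1)
          (by have : 0 < 1 / (b : ℝ) := by positivity
              linarith) (by linarith)
        rw [Real.rpow_def_of_pos (by positivity), mul_comm (Real.log _)] at h5
        refine le_trans (le_of_eq ?_) h5
        field_simp
      calc _ ≤ Real.exp ((x + 1) * Real.log b) / (x + 1) + Real.exp ((x + 1) * Real.log b) / b := by
            rw [h2]
            linarith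
        _ = (Real.exp ((x + 1) * Real.log b) * (1 + (x + 1) / b)) / (x + 1) := by
            field_simp
        _ ≤ _ := div_le_div_of_nonneg_right h3 hx1.le

theorem sum_high (x : ℝ) (hx : 1 < x) (b : ℕ) (hb : 1 ≤ b) : ∀ M : ℕ,
    ∑ v ∈ range M, Real.exp (-x * Real.log ((b + 1 + v : ℕ) : ℝ)) ≤
      (Real.exp (-(x - 1) * Real.log b) - Real.exp (-(x - 1) * Real.log ((b + M : ℕ) : ℝ))) /
        (x - 1) := by
  intro M
  have hx1 : 0 < x - 1 := by linarith
  induction M with
  | zero => simp
  | succ M ih =>
    rw [sum_range_succ]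
    set v : ℝ := ((b + M : ℕ) : ℝ) with hv
    have hv0 : 1 ≤ v := by
      rw [hv]
      exact_mod_cast (by omega : 1 ≤ b + M)
    have e1 : ((b + 1 + M : ℕ) : ℝ) = v + 1 := by
      rw [hv]
      push_cast
      ring
    have e2 : ((b + (M + 1) : ℕ) : ℝ) = v + 1 := by
      rw [hv]
      push_cast
      ring
    rw [e1, e2]
    have hv1 : 0 < v + 1 := by linarith
    have h1 : 1 / (v + 1) ≤ Real.log (v + 1) - Real.log v := by
      have h2 := Real.one_sub_inv_le_log_of_pos (show 0 < (v + 1) / v by positivity)
      rw [Real.log_div hv1.ne' (by linarith)] at h2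
      have h3 : 1 - ((v + 1) / v)⁻¹ = 1 / (v + 1) := by
        have : v ≠ 0 := by linarith
        field_simp
        ring
      linarith
    have h4 : Real.exp (-(x - 1) * Real.log v) =
        Real.exp (-(x - 1) * Real.log (v + 1)) *
          Real.exp ((x - 1) * (Real.log (v + 1) - Real.log v)) := by
      rw [← Real.exp_add]
      congr 1
      ring
    have h5 : Real.exp (-x * Real.log (v + 1)) =
        Real.exp (-(x - 1) * Real.log (v + 1)) * (1 / (v + 1)) := by
      have : -x * Real.log (v + 1) = -(x - 1) * Real.log (v + 1) + -Real.log (v + 1) := by ring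
      rw [this, Real.exp_add, Real.exp_neg (Real.log (v + 1)), Real.exp_log hv1, one_div]
    have h6 : Real.exp (-x * Real.log (v + 1)) ≤
        (Real.exp (-(x - 1) * Real.log v) - Real.exp (-(x - 1) * Real.log (v + 1))) / (x - 1) := by
      rw [le_div_iff₀ hx1, h4, h5]
      have h7 := Real.add_one_le_exp ((x - 1) * (Real.log (v + 1) - Real.log v))
      have h8 : (x - 1) * (1 / (v + 1)) ≤ (x - 1) * (Real.log (v + 1) - Real.log v) :=
        mul_le_mul_of_nonneg_left h1 hx1.le
      have h9 := Real.exp_pos (-(x - 1) * Real.log (v + 1))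
      nlinarith
    calc _ ≤ (Real.exp (-(x - 1) * Real.log b) - Real.exp (-(x - 1) * Real.log v)) / (x - 1) +
          (Real.exp (-(x - 1) * Real.log v) - Real.exp (-(x - 1) * Real.log (v + 1))) / (x - 1) :=
          add_le_add ih h6
      _ = _ := by ring

theorem sum_Gk (x : ℝ) (hx : 1 < x) (b : ℕ) (hb : 1 ≤ b) (N : ℕ) :
    ∑ v ∈ range N, Gk x b v ≤ 1 + b * (2 * x / (x ^ 2 - 1)) := by
  have hb' : (0 : ℝ) < b := by exact_mod_cast hb
  have h0 : ∑ v ∈ range N, Gk x b v ≤ ∑ v ∈ range (b + 1 + N), Gk x b v :=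
    sum_le_sum_of_subset_of_nonneg (range_subset_range.mpr (by omega)) fun v _ _ => Gk_nonneg _ _ _
  refine h0.trans ?_
  rw [sum_range_add, sum_range_succ]
  have h1 : Gk x b b = 1 := by
    unfold Gk
    rw [if_neg (by omega)]
    simp
  have h2 : ∑ v ∈ range b, Gk x b v ≤ b / (x + 1) := by
    have e1 : ∀ v ∈ range b, Gk x b v = Real.exp (-x * Real.log b) *
        (if v = 0 then 0 else Real.exp (x * Real.log v)) := by
      intro v hv
      have hv' := mem_range.mp hv
      unfold Gk
      split_ifs with h
      · simp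
      · rw [← Real.exp_add]
        have : Real.log v ≤ Real.log b := by
          apply Real.log_le_log
          · exact_mod_cast Nat.pos_of_ne_zero h
          · exact_mod_cast hv'.le
        rw [abs_of_nonneg (by linarith)]
        congr 1
        ring
    rw [sum_congr rfl e1, ← mul_sum]
    have h3 := mul_le_mul_of_nonneg_left (sum_low x (by linarith) b hb)
      (Real.exp_pos (-x * Real.log b)).le
    refine h3.trans (le_of_eq ?_)
    rw [mul_div_assoc', ← Real.exp_add]
    have : -x * Real.log b + (x + 1) * Real.log b = Real.log b := by ring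
    rw [this, Real.exp_log hb']
  have h4 : ∑ v ∈ range N, Gk x b (b + 1 + v) ≤ b / (x - 1) := by
    have e1 : ∀ v ∈ range N, Gk x b (b + 1 + v) = Real.exp (x * Real.log b) *
        Real.exp (-x * Real.log ((b + 1 + v : ℕ) : ℝ)) := by
      intro v _
      unfold Gk
      rw [if_neg (by omega), ← Real.exp_add]
      have : Real.log b ≤ Real.log ((b + 1 + v : ℕ) : ℝ) := by
        apply Real.log_le_log hb'
        exact_mod_cast (by omega : b ≤ b + 1 + v)
      rw [abs_of_nonpos (by linarith)]
      congr 1
      ring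
    rw [sum_congr rfl e1, ← mul_sum]
    have h3 := mul_le_mul_of_nonneg_left (sum_high x hx b hb N)
      (Real.exp_pos (x * Real.log b)).le
    refine h3.trans ?_
    have hx1 : 0 < x - 1 := by linarith
    rw [mul_div_assoc', mul_sub, ← Real.exp_add]
    have : x * Real.log b + -(x - 1) * Real.log b = Real.log b := by ring
    rw [this, Real.exp_log hb']
    apply div_le_div_of_nonneg_right _ hx1.le
    have : 0 ≤ Real.exp (x * Real.log b) * Real.exp (-(x - 1) * Real.log ((b + N : ℕ) : ℝ)) := by
      positivity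
    linarith
  rw [h1]
  have h5 : (b : ℝ) / (x + 1) + b / (x - 1) = b * (2 * x / (x ^ 2 - 1)) := by
    have e1 : x + 1 ≠ 0 := by linarith
    have e2 : x - 1 ≠ 0 := by linarith
    have e3 : x ^ 2 - 1 = (x + 1) * (x - 1) := by ring
    rw [e3]
    field_simp
    ring
  linarith

/-! ### pointwise bound -/

theorem lip {P Q e : ℝ} (hQ : 0 < Q) (hQP : Q ≤ P) (he : 0 < e) :
    1 / max Q e ≤ 1 / max P e + (Real.log P - Real.log Q) / e := by
  have hP : 0 < P := lt_of_lt_of_le hQ hQP
  have hmQ : 0 < max Q e := lt_max_of_lt_left hQ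
  have hmP : 0 < max P e := lt_max_of_lt_left hP
  have h1 : max P e * Q ≤ P * max Q e := by
    rcases le_total e P with h | h
    · rw [max_eq_left h]
      exact mul_le_mul_of_nonneg_left (le_max_left _ _) hP.le
    · rw [max_eq_right h, max_eq_right (hQP.trans h), mul_comm]
      exact mul_le_mul_of_nonneg_right hQP he.le
  have h2 : Real.log (max P e / max Q e) ≤ Real.log P - Real.log Q := by
    rw [← Real.log_div hP.ne' hQ.ne']
    apply Real.log_le_log (by positivity)
    rw [div_le_div_iff₀ hmQ hQ]
    exact h1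
  have h3 := Real.one_sub_inv_le_log_of_pos (show 0 < max P e / max Q e by positivity)
  have h4 : (1 : ℝ) / max Q e - 1 / max P e = (1 / max Q e) * (1 - (max P e / max Q e)⁻¹) := by
    field_simp
  have h5 : 0 ≤ 1 - (max P e / max Q e)⁻¹ := by
    rw [sub_nonneg]
    apply inv_le_one_of_one_le₀
    rw [one_le_div hmQ]
    exact max_le_max hQP le_rfl
  have h6 : (1 : ℝ) / max Q e ≤ 1 / e := one_div_le_one_div_of_le he (le_max_right _ _)
  have h7 : (1 / max Q e) * (1 - (max P e / max Q e)⁻¹) ≤
      (1 / e) * (Real.log P - Real.log Q) :=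
    mul_le_mul h6 (h3.trans h2) h5 (by positivity)
  have h8 : (1 / e) * (Real.log P - Real.log Q) = (Real.log P - Real.log Q) / e := by ring
  linarith

theorem sqrt_exp_half (x : ℝ) : Real.sqrt (Real.exp x) = Real.exp (x / 2) :=
  (Real.exp_half x).symm

set_option maxHeartbeats 1000000 in
/-- the kernel of the cross term is at most a sum over the coordinates -/
theorem kern_le {n : ℕ} (hn : 1 ≤ n) (P Q : Fin n → ℝ) (hP : ∀ k, 0 < P k) (hQ : ∀ k, 0 < Q k)
    (hP1 : ∀ k, P k ≤ 1) (hQ1 : ∀ k, Q k ≤ 1) {e th : ℝ} (he : 0 < e) (he1 : e ≤ 1)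
    (hth : th = 1 - 4 / (e ^ 2 * n)) (hth0 : 0 < th) :
    (∏ k, min (P k) (Q k)) *
      ((∑ k, if P k ≤ Q k then 1 / max (P k) e else 0) *
        (∑ k, if Q k ≤ P k then 1 / max (Q k) e else 0)) /
      (Real.sqrt ((∏ k, P k) * ∑ k, 1 / max (P k) e) *
        Real.sqrt ((∏ k, Q k) * ∑ k, 1 / max (Q k) e)) ≤
      (1 / 4) * ∑ k, (1 / max (P k) e) * Real.exp (-((∑ l, 1 / max (P l) e) * th / 2 * max (P k) e) *
        |Real.log (P k) - Real.log (Q k)|) +
      (3 / 4) * ∑ k, (if P k = Q k then 1 / e else 0) := by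
  have hn' : (0 : ℝ) < n := by exact_mod_cast hn
  have hn1 : (1 : ℝ) ≤ n := by exact_mod_cast hn
  set a := ∑ k, 1 / max (P k) e with ha
  set a' := ∑ k, 1 / max (Q k) e with ha'
  set al := ∑ k, (if P k ≤ Q k then 1 / max (P k) e else 0) with hal
  set be := ∑ k, (if Q k ≤ P k then 1 / max (Q k) e else 0) with hbe
  set D := ∑ k, |Real.log (P k) - Real.log (Q k)| with hD
  set t := ∑ k, (if P k = Q k then 1 / max (P k) e else 0) with ht
  have hmP : ∀ k, 0 < max (P k) e := fun k => lt_max_of_lt_left (hP k)
  have hmQ : ∀ k, 0 < max (Q k) e := fun k => lt_max_of_lt_left (hQ k)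
  have hw1 : ∀ k, 1 ≤ 1 / max (P k) e := fun k => by
    rw [le_div_iff₀ (hmP k), one_mul]
    exact max_le (hP1 k) he1
  have hw1' : ∀ k, 1 ≤ 1 / max (Q k) e := fun k => by
    rw [le_div_iff₀ (hmQ k), one_mul]
    exact max_le (hQ1 k) he1
  have hwe : ∀ k, 1 / max (P k) e ≤ 1 / e := fun k => one_div_le_one_div_of_le he (le_max_right _ _)
  have han : (n : ℝ) ≤ a := by
    calc (n : ℝ) = ∑ k : Fin n, (1 : ℝ) := by simp
      _ ≤ a := sum_le_sum fun k _ => hw1 k
  have han' : (n : ℝ) ≤ a' := by
    calc (n : ℝ) = ∑ k : Fin n, (1 : ℝ) := by simp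
      _ ≤ a' := sum_le_sum fun k _ => hw1' k
  have ha0 : 0 < a := lt_of_lt_of_le hn' han
  have ha0' : 0 < a' := lt_of_lt_of_le hn' han'
  have hD0 : 0 ≤ D := sum_nonneg fun k _ => abs_nonneg _
  have ht0 : 0 ≤ t := sum_nonneg fun k _ => by
    have := hw1 k
    split_ifs <;> linarith
  have hal0 : 0 ≤ al := sum_nonneg fun k _ => by
    have := hw1 k
    split_ifs <;> linarith
  have hbe0 : 0 ≤ be := sum_nonneg fun k _ => by
    have := hw1' k
    split_ifs <;> linarith
  set m := al + be - t with hm
  -- m is at least t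
  have hmt : t ≤ m := by
    have : t + t ≤ al + be := by
      rw [ht, hal, hbe, ← sum_add_distrib, ← sum_add_distrib]
      apply sum_le_sum
      intro k _
      have h1 := hw1 k
      have h2 := hw1' k
      by_cases h : P k = Q k
      · rw [h]
        simp
      · rw [if_neg h]
        split_ifs <;> linarith
    linarith
  have hma : m ≤ a + D / e := by
    have : al + be ≤ a + D / e + t := by
      rw [ht, hal, hbe, ha, hD, sum_div, ← sum_add_distrib, ← sum_add_distrib, ← sum_add_distrib]
      apply sum_le_sum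
      intro k _
      have h1 := hw1 k
      have h2 : 0 ≤ |Real.log (P k) - Real.log (Q k)| / e := by positivity
      rcases lt_trichotomy (P k) (Q k) with h | h | h
      · rw [if_pos h.le, if_neg (not_le.mpr h), if_neg h.ne]
        linarith
      · rw [h]
        simp
      · rw [if_neg (not_le.mpr h), if_pos h.le, if_neg h.ne']
        have h3 := lip (hQ k) h.le he
        have h4 : (Real.log (P k) - Real.log (Q k)) / e ≤ |Real.log (P k) - Real.log (Q k)| / e :=
          div_le_div_of_nonneg_right (le_abs_self _) he.le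
        linarith
    linarith
  have hma' : m ≤ a' + D / e := by
    have : al + be ≤ a' + D / e + t := by
      rw [ht, hal, hbe, ha', hD, sum_div, ← sum_add_distrib, ← sum_add_distrib, ← sum_add_distrib]
      apply sum_le_sum
      intro k _
      have h1 := hw1' k
      have h2 : 0 ≤ |Real.log (P k) - Real.log (Q k)| / e := by positivity
      rcases lt_trichotomy (P k) (Q k) with h | h | h
      · rw [if_pos h.le, if_neg (not_le.mpr h), if_neg h.ne]
        have h3 := lip (hP k) h.le he
        have h4 : (Real.log (Q k) - Real.log (P k)) / e ≤ |Real.log (P k) - Real.log (Q k)| / e := by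
          rw [abs_sub_comm]
          exact div_le_div_of_nonneg_right (le_abs_self _) he.le
        linarith
      · rw [h]
        simp
      · rw [if_neg (not_le.mpr h), if_pos h.le, if_neg h.ne']
        linarith
    linarith
  have hm0 : 0 ≤ m := ht0.trans hmt
  set z := 1 + D / (e * n) with hz
  have hz1 : 1 ≤ z := by
    have : 0 ≤ D / (e * n) := by positivity
    linarith
  have hmz : m ≤ a * z := by
    have : D / e ≤ a * (D / (e * n)) := by
      have h1 : D / e = n * (D / (e * n)) := by field_simp
      rw [h1]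
      exact mul_le_mul_of_nonneg_right han (by positivity)
    calc m ≤ a + D / e := hma
      _ ≤ a * z := by rw [hz]; linarith
  have hmz' : m ≤ a' * z := by
    have : D / e ≤ a' * (D / (e * n)) := by
      have h1 : D / e = n * (D / (e * n)) := by field_simp
      rw [h1]
      exact mul_le_mul_of_nonneg_right han' (by positivity)
    calc m ≤ a' + D / e := hma'
      _ ≤ a' * z := by rw [hz]; linarith
  set rt := Real.sqrt a * Real.sqrt a' with hrt
  have hrt0 : 0 < rt := mul_pos (Real.sqrt_pos.mpr ha0) (Real.sqrt_pos.mpr ha0')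
  have hmr : m ≤ rt * z := by
    apply le_of_sq_le_sq _ (by positivity)
    have h1 : (rt * z) ^ 2 = (a * z) * (a' * z) := by
      rw [hrt, mul_pow, mul_pow, Real.sq_sqrt ha0.le, Real.sq_sqrt ha0'.le]
      ring
    rw [h1, sq]
    exact mul_le_mul hmz hmz' hm0 (by positivity)
  -- the ratio
  have hratio : (∏ k, min (P k) (Q k)) * (al * be) /
      (Real.sqrt ((∏ k, P k) * a) * Real.sqrt ((∏ k, Q k) * a')) =
      Real.exp (-D / 2) * (al * be / rt) := by
    have e1 : ∏ k, P k = Real.exp (∑ k, Real.log (P k)) := by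
      rw [Real.exp_sum]
      exact prod_congr rfl fun k _ => (Real.exp_log (hP k)).symm
    have e2 : ∏ k, Q k = Real.exp (∑ k, Real.log (Q k)) := by
      rw [Real.exp_sum]
      exact prod_congr rfl fun k _ => (Real.exp_log (hQ k)).symm
    have e3 : ∏ k, min (P k) (Q k) =
        Real.exp ((∑ k, Real.log (P k)) / 2 + (∑ k, Real.log (Q k)) / 2 + -D / 2) := by
      have : (∑ k, Real.log (P k)) / 2 + (∑ k, Real.log (Q k)) / 2 + -D / 2 =
          ∑ k, (Real.log (P k) / 2 + Real.log (Q k) / 2 -
            |Real.log (P k) - Real.log (Q k)| / 2) := by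
        rw [sum_sub_distrib, sum_add_distrib, ← sum_div, ← sum_div, ← sum_div, ← hD]
        ring
      rw [this, Real.exp_sum]
      apply prod_congr rfl
      intro k _
      rcases le_total (P k) (Q k) with h | h
      · have h1 := Real.log_le_log (hP k) h
        rw [min_eq_left h, abs_of_nonpos (by linarith)]
        have : Real.log (P k) / 2 + Real.log (Q k) / 2 - -(Real.log (P k) - Real.log (Q k)) / 2 =
            Real.log (P k) := by ring
        rw [this, Real.exp_log (hP k)]
      · have h1 := Real.log_le_log (hQ k) h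
        rw [min_eq_right h, abs_of_nonneg (by linarith)]
        have : Real.log (P k) / 2 + Real.log (Q k) / 2 - (Real.log (P k) - Real.log (Q k)) / 2 =
            Real.log (Q k) := by ring
        rw [this, Real.exp_log (hQ k)]
    rw [Real.sqrt_mul (by rw [e1]; positivity), Real.sqrt_mul (by rw [e2]; positivity), e3, e1, e2,
      sqrt_exp_half, sqrt_exp_half, Real.exp_add, Real.exp_add, hrt]
    have h1 := Real.exp_pos ((∑ k, Real.log (P k)) / 2)
    have h2 := Real.exp_pos ((∑ k, Real.log (Q k)) / 2)
    have h3 := Real.sqrt_pos.mpr ha0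
    have h4 := Real.sqrt_pos.mpr ha0'
    field_simp
  rw [hratio]
  have hab : al * be / rt ≤ (1 / 4) * (a * z ^ 2) + (3 / 4) * (t * z) := by
    rw [div_le_iff₀ hrt0]
    have h1 : al * be ≤ (m + t) ^ 2 / 4 := by
      have : m + t = al + be := by rw [hm]; ring
      rw [this]
      nlinarith [sq_nonneg (al - be)]
    have h5 : t * t ≤ m * t := mul_le_mul_of_nonneg_right hmt ht0
    have h2 : (m + t) ^ 2 / 4 ≤ m * m / 4 + 3 / 4 * (m * t) := by
      have : (m + t) ^ 2 = m * m + 2 * (m * t) + t * t := by ring
      rw [this]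
      linarith
    have h3 : m * m ≤ a * z * (rt * z) := mul_le_mul hmz hmr hm0 (by positivity)
    have h4 : m * t ≤ rt * z * t := mul_le_mul_of_nonneg_right hmr ht0
    have h6 : (1 / 4 * (a * z ^ 2) + 3 / 4 * (t * z)) * rt =
        a * z * (rt * z) / 4 + 3 / 4 * (rt * z * t) := by ring
    rw [h6]
    linarith
  have hDn : D / (e * n) ≤ D / (e ^ 2 * n) := by
    apply div_le_div_of_nonneg_left hD0 (by positivity)
    apply mul_le_mul_of_nonneg_right _ hn'.le
    nlinarith
  have hzexp : z ≤ Real.exp (D / (e ^ 2 * n)) := by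
    have := Real.add_one_le_exp (D / (e ^ 2 * n))
    rw [hz]
    linarith
  have hexp2 : Real.exp (-D / 2) * z ^ 2 ≤ Real.exp (-(th * D / 2)) := by
    have h1 : z ^ 2 ≤ Real.exp (D / (e ^ 2 * n)) ^ 2 := by
      apply pow_le_pow_left₀ (by linarith) hzexp
    have h2 : Real.exp (-D / 2) * Real.exp (D / (e ^ 2 * n)) ^ 2 = Real.exp (-(th * D / 2)) := by
      rw [← Real.exp_nat_mul, ← Real.exp_add]
      congr 1
      rw [hth]
      push_cast
      field_simp
      ring
    rw [← h2]
    exact mul_le_mul_of_nonneg_left h1 (Real.exp_pos _).le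
  have hexp1 : Real.exp (-D / 2) * z ≤ 1 := by
    have h1 : Real.exp (-D / 2) * z ≤ Real.exp (-D / 2) * z ^ 2 := by
      apply mul_le_mul_of_nonneg_left _ (Real.exp_pos _).le
      nlinarith
    have h2 : Real.exp (-(th * D / 2)) ≤ 1 := by
      rw [Real.exp_le_one_iff]
      have : 0 ≤ th * D / 2 := by positivity
      linarith
    linarith
  have hJ : a * Real.exp (-(th * D / 2)) ≤ ∑ k, (1 / max (P k) e) *
      Real.exp (-(a * th / 2 * max (P k) e) * |Real.log (P k) - Real.log (Q k)|) := by
    have h1 := convexOn_exp.map_sum_le (t := (univ : Finset (Fin n)))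
      (w := fun k => 1 / max (P k) e / a)
      (p := fun k => -(a * th / 2 * max (P k) e) * |Real.log (P k) - Real.log (Q k)|)
      (fun k _ => by have := hw1 k; positivity) (by rw [← sum_div]; exact div_self ha0.ne')
      (fun k _ => Set.mem_univ _)
    simp only [smul_eq_mul] at h1
    have h2 : ∑ k, 1 / max (P k) e / a *
        (-(a * th / 2 * max (P k) e) * |Real.log (P k) - Real.log (Q k)|) = -(th * D / 2) := by
      have : -(th * D / 2) = ∑ k, -(th / 2) * |Real.log (P k) - Real.log (Q k)| := by
        rw [← mul_sum, ← hD]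
        ring
      rw [this]
      apply sum_congr rfl
      intro k _
      have h3 := (hmP k).ne'
      field_simp
    rw [h2] at h1
    have h3 := mul_le_mul_of_nonneg_left h1 ha0.le
    refine h3.trans (le_of_eq ?_)
    rw [mul_sum]
    apply sum_congr rfl
    intro k _
    field_simp
  have hte : t ≤ ∑ k, (if P k = Q k then 1 / e else 0) := by
    apply sum_le_sum
    intro k _
    have := hwe k
    split_ifs
    · exact this
    · exact le_rfl
  calc Real.exp (-D / 2) * (al * be / rt) ≤
      Real.exp (-D / 2) * ((1 / 4) * (a * z ^ 2) + (3 / 4) * (t * z)) :=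
        mul_le_mul_of_nonneg_left hab (Real.exp_pos _).le
    _ = (1 / 4) * (a * (Real.exp (-D / 2) * z ^ 2)) + (3 / 4) * (t * (Real.exp (-D / 2) * z)) := by
        ring
    _ ≤ (1 / 4) * (a * Real.exp (-(th * D / 2))) + (3 / 4) * (t * 1) := by
        have h1 := mul_le_mul_of_nonneg_left hexp2 ha0.le
        have h2 := mul_le_mul_of_nonneg_left hexp1 ht0
        linarith
    _ ≤ _ := by linarith

end Pool.Agent.Helper18.Sharp
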