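import Pool.Agent.Helper18.Sharp.Cross

set_option autoImplicit false

namespace Pool.Agent.Helper18.Sharp

open Finset MeasureTheory Pool.Agent.Helper43.Copula Pool.Agent.Helper3.Cop
  Pool.Agent.Helper45.CR Pool.Agent.Helper89.SH

/-- scalar bound of the grid expectation, summed over the coordinates -/
theorem scal_sum {n : ℕ} (hn : 1 ≤ n) (P : Fin n → ℝ) (hP : ∀ k, 0 < P k) (hP1 : ∀ k, P k ≤ 1)
    {e th : ℝ} (he : 0 < e) (he1 : e ≤ 1) (hth0 : 0 < th) (h2 : 2 < n * th * e) (N : ℕ)
    (hN : 1 ≤ N) :
    ∑ k, (1 / max (P k) e) * ((1 + (P k * N) *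
      (2 * ((∑ l, 1 / max (P l) e) * th / 2 * max (P k) e) /
        (((∑ l, 1 / max (P l) e) * th / 2 * max (P k) e) ^ 2 - 1))) / N) ≤
      4 / th / (1 - 4 / (n * th * e) ^ 2) + n / (e * N) := by
  have hn' : (0 : ℝ) < n := by exact_mod_cast hn
  have hN' : (0 : ℝ) < N := by exact_mod_cast hN
  set a := ∑ l, 1 / max (P l) e with ha
  have hmP : ∀ k, 0 < max (P k) e := fun k => lt_max_of_lt_left (hP k)
  have hw1 : ∀ k, 1 ≤ 1 / max (P k) e := fun k => by
    rw [le_div_iff₀ (hmP k), one_mul]
    exact max_le (hP1 k) he1
  have han : (n : ℝ) ≤ a := by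
    calc (n : ℝ) = ∑ k : Fin n, (1 : ℝ) := by simp
      _ ≤ a := sum_le_sum fun k _ => hw1 k
  have ha0 : 0 < a := lt_of_lt_of_le hn' han
  have hc0 : 0 < 1 - 4 / (n * th * e) ^ 2 := by
    rw [sub_pos, div_lt_one (by positivity)]
    nlinarith
  have hterm : ∀ k, (1 / max (P k) e) * ((1 + (P k * N) *
      (2 * (a * th / 2 * max (P k) e) / ((a * th / 2 * max (P k) e) ^ 2 - 1))) / N) ≤
      (4 / th / (1 - 4 / (n * th * e) ^ 2)) * ((1 / max (P k) e) / a) + 1 / (e * N) := by
    intro k
    have hm := hmP k
    set x := a * th / 2 * max (P k) e with hx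
    have hx0 : n * th * e / 2 ≤ x := by
      rw [hx]
      have h3 : n * th * e / 2 = n * (th / 2) * e := by ring
      have h4 : a * th / 2 * max (P k) e = a * (th / 2) * max (P k) e := by ring
      rw [h3, h4]
      apply mul_le_mul _ (le_max_right _ _) he.le (by positivity)
      exact mul_le_mul_of_nonneg_right han (by positivity)
    have hx1 : 1 < x := by linarith
    have hxx : 0 < x ^ 2 - 1 := by nlinarith
    have h5 : 2 * x / (x ^ 2 - 1) ≤ (2 / x) / (1 - 4 / (n * th * e) ^ 2) := by
      rw [div_le_div_iff₀ hxx hc0]
      have h6 : 4 / (n * th * e) ^ 2 ≤ 4 / (4 * x ^ 2) * (4 * x ^ 2 / (n * th * e) ^ 2) := by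
        have : x ≠ 0 := by linarith
        rw [div_mul_div_comm]
        apply le_of_eq
        field_simp
      have h7 : 1 / x ^ 2 ≤ 4 / (n * th * e) ^ 2 := by
        rw [div_le_div_iff₀ (by positivity) (by positivity)]
        have h8 : (n * th * e / 2) ^ 2 ≤ x ^ 2 := pow_le_pow_left₀ (by positivity) hx0 2
        nlinarith
      have h9 : 2 / x * (x ^ 2 - 1) = 2 * x * (1 - 1 / x ^ 2) := by
        have : x ≠ 0 := by linarith
        field_simp
      rw [h9]
      apply mul_le_mul_of_nonneg_left _ (by linarith)
      linarith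
    have h10 : (1 / max (P k) e) * ((1 + (P k * N) * (2 * x / (x ^ 2 - 1))) / N) =
        (1 / max (P k) e) / N + (P k / max (P k) e) * (2 * x / (x ^ 2 - 1)) := by
      field_simp
    rw [h10]
    have h11 : (1 / max (P k) e) / N ≤ 1 / (e * N) := by
      rw [div_div]
      apply one_div_le_one_div_of_le (by positivity)
      exact mul_le_mul_of_nonneg_right (le_max_right _ _) hN'.le
    have h12 : P k / max (P k) e ≤ 1 := by
      rw [div_le_one hm]
      exact le_max_left _ _
    have h13 : 0 ≤ 2 * x / (x ^ 2 - 1) := by positivity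
    have h14 : (P k / max (P k) e) * (2 * x / (x ^ 2 - 1)) ≤ 2 * x / (x ^ 2 - 1) :=
      mul_le_of_le_one_left h13 h12
    have h15 : (2 / x) / (1 - 4 / (n * th * e) ^ 2) =
        (4 / th / (1 - 4 / (n * th * e) ^ 2)) * ((1 / max (P k) e) / a) := by
      rw [hx]
      field_simp
      norm_num
    linarith
  refine (sum_le_sum fun k _ => hterm k).trans ?_
  rw [sum_add_distrib, ← mul_sum, ← sum_div, ← ha, div_self ha0.ne', mul_one, sum_const,
    card_univ, Fintype.card_fin, nsmul_eq_mul]
  apply le_of_eq
  congr 1
  ring

theorem l2 : L2 := by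
  classical
  intro n hn C hC N hN e th he he1 hth hth0 h2
  have hn' : (0 : ℝ) < n := by exact_mod_cast hn
  have hN' : (0 : ℝ) < N := by exact_mod_cast hN
  set J := Fintype.piFinset (fun _ : Fin n => range N) with hJ
  have hjN : ∀ j ∈ J, ∀ k, j k < N := by
    intro j hj k
    rw [hJ, Fintype.mem_piFinset] at hj
    exact mem_range.mp (hj k)
  have hm : ∀ j ∈ J, 0 ≤ mass C N j := fun j hj => mass_nonneg hC hN (hjN j hj)
  have hgJ : good n N ⊆ J := filter_subset _ _
  have hgd : ∀ j ∈ good n N, ∀ k, j k + 1 < N := fun j hj => (mem_filter.mp hj).2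
  have hc0 : 0 < 1 - 4 / (n * th * e) ^ 2 := by
    rw [sub_pos, div_lt_one (by positivity)]
    nlinarith
  -- inner sum
  have hinner : ∀ i ∈ good n N, ∑ j ∈ good n N, mass C N i * mass C N j *
      ((∏ k, min (qv N (i k)) (qv N (j k))) * (al e N i j * al e N j i) /
        (Real.sqrt (VV N i * aa e N i) * Real.sqrt (VV N j * aa e N j))) ≤
      mass C N i * ((1 / 4) * (4 / th / (1 - 4 / (n * th * e) ^ 2) + n / (e * N)) +
        (3 / 4) * (n / (e * N))) := by
    intro i hi
    have hid := hgd i hi
    have hqi : ∀ k, 0 < qv N (i k) := fun k => qv_pos (hid k)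
    set a := ∑ l, 1 / max (qv N (i l)) e with ha
    set cc : Fin n → ℝ := fun k => a * th / 2 * max (qv N (i k)) e with hcc
    have hmP : ∀ k, 0 < max (qv N (i k)) e := fun k => lt_max_of_lt_left (hqi k)
    have hw1 : ∀ k, 1 ≤ 1 / max (qv N (i k)) e := fun k => by
      rw [le_div_iff₀ (hmP k), one_mul]
      exact max_le qv_le_one he1
    have han : (n : ℝ) ≤ a := by
      calc (n : ℝ) = ∑ k : Fin n, (1 : ℝ) := by simp
        _ ≤ a := sum_le_sum fun k _ => hw1 k
    have hcc1 : ∀ k, 1 < cc k := by
      intro k
      have h3 : n * th * e / 2 ≤ cc k := by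
        have h3 : n * th * e / 2 = n * (th / 2) * e := by ring
        have h4 : cc k = a * (th / 2) * max (qv N (i k)) e := by rw [hcc]; ring
        rw [h3, h4]
        apply mul_le_mul _ (le_max_right _ _) he.le (by positivity)
        exact mul_le_mul_of_nonneg_right han (by positivity)
      linarith
    set F : Fin n → ℕ → ℝ := fun k v => (1 / max (qv N (i k)) e) *
      Gk (cc k) (N - 1 - i k) (N - 1 - v) with hF
    have hpt : ∀ j ∈ good n N, (∏ k, min (qv N (i k)) (qv N (j k))) * (al e N i j * al e N j i) /
        (Real.sqrt (VV N i * aa e N i) * Real.sqrt (VV N j * aa e N j)) ≤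
        (1 / 4) * ∑ k, F k (j k) + (3 / 4) * ∑ k, (if i k = j k then 1 / e else 0) := by
      intro j hj
      have hjd := hgd j hj
      have hqj : ∀ k, 0 < qv N (j k) := fun k => qv_pos (hjd k)
      have h3 := kern_le hn (fun k => qv N (i k)) (fun k => qv N (j k)) hqi hqj
        (fun k => qv_le_one) (fun k => qv_le_one) he he1 hth hth0
      refine h3.trans ?_
      apply add_le_add
      · apply mul_le_mul_of_nonneg_left _ (by norm_num)
        apply sum_le_sum
        intro k _
        simp only [hF]
        apply mul_le_mul_of_nonneg_left _ (by positivity)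
        apply le_of_eq
        unfold Gk
        rw [if_neg (by have := hjd k; omega)]
        have hb : (0 : ℝ) < ((N - 1 - i k : ℕ) : ℝ) := by
          have := hid k
          exact_mod_cast (by omega : 0 < N - 1 - i k)
        have hb' : (0 : ℝ) < ((N - 1 - j k : ℕ) : ℝ) := by
          have := hjd k
          exact_mod_cast (by omega : 0 < N - 1 - j k)
        have e1 : Real.log (qv N (i k)) - Real.log (qv N (j k)) =
            Real.log ((N - 1 - i k : ℕ) : ℝ) - Real.log ((N - 1 - j k : ℕ) : ℝ) := by
          rw [qv_eq (by have := hid k; omega), qv_eq (by have := hjd k; omega),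
            Real.log_div hb.ne' hN'.ne', Real.log_div hb'.ne' hN'.ne']
          ring
        rw [e1]
      · apply mul_le_mul_of_nonneg_left _ (by norm_num)
        apply sum_le_sum
        intro k _
        by_cases h : i k = j k
        · simp [h]
        · rw [if_neg h, if_neg]
          intro h4
          apply h
          rw [qv_eq (by have := hid k; omega), qv_eq (by have := hjd k; omega),
            div_left_inj' hN'.ne'] at h4
          have h5 : N - 1 - i k = N - 1 - j k := by exact_mod_cast h4
          have := hid k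
          have := hjd k
          omega
    have hFnn : ∀ k v, 0 ≤ F k v := fun k v => by
      simp only [hF]
      exact mul_nonneg (by have := hw1 k; linarith) (Gk_nonneg _ _ _)
    have htnn : ∀ k : Fin n, ∀ v : ℕ, (0 : ℝ) ≤ (if i k = v then 1 / e else 0) := fun k v => by
      split_ifs <;> positivity
    calc _ = mass C N i * ∑ j ∈ good n N, mass C N j *
          ((∏ k, min (qv N (i k)) (qv N (j k))) * (al e N i j * al e N j i) /
            (Real.sqrt (VV N i * aa e N i) * Real.sqrt (VV N j * aa e N j))) := by
          rw [mul_sum]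
          apply sum_congr rfl
          intro j _
          ring
      _ ≤ mass C N i * ∑ j ∈ good n N, mass C N j *
          ((1 / 4) * ∑ k, F k (j k) + (3 / 4) * ∑ k, (if i k = j k then 1 / e else 0)) := by
          apply mul_le_mul_of_nonneg_left _ (hm i (hgJ hi))
          apply sum_le_sum
          intro j hj
          exact mul_le_mul_of_nonneg_left (hpt j hj) (hm j (hgJ hj))
      _ ≤ mass C N i * ∑ j ∈ J, mass C N j *
          ((1 / 4) * ∑ k, F k (j k) + (3 / 4) * ∑ k, (if i k = j k then 1 / e else 0)) := by
          apply mul_le_mul_of_nonneg_left _ (hm i (hgJ hi))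
          apply sum_le_sum_of_subset_of_nonneg hgJ
          intro j hj _
          apply mul_nonneg (hm j hj)
          apply add_nonneg
          · exact mul_nonneg (by norm_num) (sum_nonneg fun k _ => hFnn k _)
          · exact mul_nonneg (by norm_num) (sum_nonneg fun k _ => htnn k _)
      _ = mass C N i * ((1 / 4) * ∑ k, (∑ c ∈ range N, F k c) / N +
          (3 / 4) * ∑ k, (∑ c ∈ range N, (if i k = c then 1 / e else 0)) / N) := by
          congr 1
          have e1 : ∀ j ∈ J, mass C N j *
              ((1 / 4) * ∑ k, F k (j k) + (3 / 4) * ∑ k, (if i k = j k then 1 / e else 0)) =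
              (1 / 4) * ∑ k, mass C N j * F k (j k) +
                (3 / 4) * ∑ k, mass C N j * (if i k = j k then 1 / e else 0) := by
            intro j _
            rw [← mul_sum, ← mul_sum]
            ring
          rw [sum_congr rfl e1, sum_add_distrib, ← mul_sum, ← mul_sum, sum_comm,
            sum_comm (s := J) (t := univ)
              (f := fun j k => mass C N j * (if i k = j k then 1 / e else 0))]
          congr 2
          · apply sum_congr rfl
            intro k _
            exact sum_mass_fun hn hC hN k (F k)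
          · apply sum_congr rfl
            intro k _
            exact sum_mass_fun hn hC hN k (fun c => if i k = c then 1 / e else 0)
      _ ≤ _ := by
          apply mul_le_mul_of_nonneg_left _ (hm i (hgJ hi))
          apply add_le_add
          · apply mul_le_mul_of_nonneg_left _ (by norm_num)
            refine le_trans ?_ (scal_sum hn (fun k => qv N (i k)) hqi (fun k => qv_le_one) he he1
              hth0 h2 N hN)
            apply sum_le_sum
            intro k _
            have hik := hid k
            have e2 : ∑ c ∈ range N, F k c = (1 / max (qv N (i k)) e) *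
                ∑ v ∈ range N, Gk (cc k) (N - 1 - i k) v := by
              simp only [hF]
              rw [← mul_sum, Finset.sum_range_reflect (fun v => Gk (cc k) (N - 1 - i k) v)]
            rw [e2, mul_div_assoc]
            apply mul_le_mul_of_nonneg_left _ (by have := hw1 k; linarith)
            apply div_le_div_of_nonneg_right _ hN'.le
            refine (sum_Gk (cc k) (hcc1 k) (N - 1 - i k) (by omega) N).trans (le_of_eq ?_)
            have e3 : qv N (i k) * N = ((N - 1 - i k : ℕ) : ℝ) := by
              rw [qv_eq (by omega)]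
              field_simp
            rw [e3]
          · apply mul_le_mul_of_nonneg_left _ (by norm_num)
            have e4 : ∀ k : Fin n, (∑ c ∈ range N, (if i k = c then 1 / e else 0)) / N =
                1 / (e * N) := by
              intro k
              rw [sum_ite_eq, if_pos (mem_range.mpr (by have := hid k; omega)), div_div]
            rw [sum_congr rfl fun k _ => e4 k, sum_const, card_univ, Fintype.card_fin,
              nsmul_eq_mul]
            apply le_of_eq
            ring
  -- outer sum
  set B := (1 / 4) * (4 / th / (1 - 4 / (n * th * e) ^ 2) + n / (e * N)) +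
    (3 / 4) * (n / (e * N)) with hB
  have hB0 : 0 ≤ B := by
    have : 0 ≤ 4 / th / (1 - 4 / (n * th * e) ^ 2) := by positivity
    have : 0 ≤ (n : ℝ) / (e * N) := by positivity
    positivity
  have h3 : TT C e N ≤ ∑ i ∈ good n N, mass C N i * B := sum_le_sum hinner
  have h4 : ∑ i ∈ good n N, mass C N i * B ≤ B := by
    rw [← sum_mul]
    have h5 : ∑ i ∈ good n N, mass C N i ≤ 1 := by
      rw [← sum_mass_total hn hC hN]
      exact sum_le_sum_of_subset_of_nonneg hgJ fun j hj _ => hm j hj
    calc _ ≤ 1 * B := mul_le_mul_of_nonneg_right h5 hB0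
      _ = B := one_mul _
  have h6 : B ≤ 1 / th / (1 - 4 / (n * th * e) ^ 2) + n / (e ^ 2 * N) := by
    have h7 : (n : ℝ) / (e * N) ≤ n / (e ^ 2 * N) := by
      apply div_le_div_of_nonneg_left hn'.le (by positivity)
      apply mul_le_mul_of_nonneg_right _ hN'.le
      nlinarith
    have h8 : B = 1 / th / (1 - 4 / (n * th * e) ^ 2) + n / (e * N) := by
      rw [hB]
      ring
    rw [h8]
    linarith
  linarith

end Pool.Agent.Helper18.Sharp
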