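import Mathlib

set_option autoImplicit false

namespace Pool.Agent.Helper18.Sharp

open MeasureTheory Set Filter Topology Real

theorem integral_rpow_exp (s : ℝ) (hs : 0 < s) :
    ∫ x in Ioi (0:ℝ), x ^ (s - 1) * exp (-x) = Gamma s := by
  rw [Real.Gamma_eq_integral hs]
  congr 1
  ext x
  ring

theorem complex_int :
    ∫ t : ℝ in Ioi 0, ((t : ℂ) ^ ((2 : ℂ) - 1) * ((Real.log t : ℂ) * (Real.exp (-t) : ℂ))) =
      ((1 - eulerMascheroniConstant : ℝ) : ℂ) := by
  have h1 := Complex.hasDerivAt_GammaIntegral (s := 2) (by simp)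
  have h2 := Complex.hasDerivAt_Gamma_nat 1
  have h3 : Complex.Gamma =ᶠ[𝓝 2] Complex.GammaIntegral := by
    have : IsOpen {s : ℂ | 0 < s.re} := Complex.continuous_re.isOpen_preimage _ isOpen_Ioi
    filter_upwards [this.mem_nhds (show (2 : ℂ) ∈ {s : ℂ | 0 < s.re} by simp)] with s hs
    exact Complex.Gamma_eq_integral hs
  have h4 : HasDerivAt Complex.Gamma
      (∫ t : ℝ in Ioi 0, ((t : ℂ) ^ ((2 : ℂ) - 1) * ((Real.log t : ℂ) * (Real.exp (-t) : ℂ)))) 2 :=
    h1.congr_of_eventuallyEq h3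
  have h5 : ((1 : ℕ) : ℂ) + 1 = 2 := by norm_num
  rw [h5] at h2
  rw [h4.unique h2]
  simp [harmonic]
  ring

theorem int_log :
    ∫ y in Ioi (0:ℝ), y * Real.log y * exp (-y) = 1 - eulerMascheroniConstant := by
  have h := complex_int
  have h1 : ∫ t : ℝ in Ioi 0, ((t : ℂ) ^ ((2 : ℂ) - 1) * ((Real.log t : ℂ) * (Real.exp (-t) : ℂ))) =
      ∫ t : ℝ in Ioi 0, ((t * Real.log t * Real.exp (-t) : ℝ) : ℂ) := by
    apply setIntegral_congr_fun measurableSet_Ioi
    intro t _
    have : (2 : ℂ) - 1 = 1 := by norm_num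
    simp only [this, Complex.cpow_one]
    push_cast
    ring
  rw [h1, integral_complex_ofReal] at h
  exact_mod_cast h

theorem integrable_log : IntegrableOn (fun y : ℝ => y * Real.log y * exp (-y)) (Ioi 0) := by
  by_contra hcon
  have h := integral_undef hcon
  rw [int_log] at h
  have := Real.eulerMascheroniConstant_lt_two_thirds
  linarith

theorem integrable_sq : IntegrableOn (fun y : ℝ => y ^ 2 * exp (-y)) (Ioi 0) := by
  have h := Real.GammaIntegral_convergent (s := 3) (by norm_num)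
  refine h.congr_fun ?_ measurableSet_Ioi
  intro x hx
  have h2 : (3 : ℝ) - 1 = ((2 : ℕ) : ℝ) := by norm_num
  simp only [h2, Real.rpow_natCast]
  ring

theorem int_sq : ∫ y in Ioi (0:ℝ), y ^ 2 * exp (-y) = 2 := by
  have h := integral_rpow_exp 3 (by norm_num)
  have h2 : (3 : ℝ) - 1 = ((2 : ℕ) : ℝ) := by norm_num
  rw [h2] at h
  simp only [Real.rpow_natCast] at h
  rw [h]
  have h3 : (3 : ℝ) = ((2 : ℕ) : ℝ) + 1 := by norm_num
  rw [h3, Real.Gamma_nat_eq_factorial]
  norm_num [Nat.factorial]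

/-- the dual potential -/
noncomputable def psi (y : ℝ) : ℝ := y ^ 2 - y * Real.log y

theorem integrable_psi : IntegrableOn (fun y : ℝ => psi y * exp (-y)) (Ioi 0) := by
  refine (integrable_sq.sub integrable_log).congr_fun ?_ measurableSet_Ioi
  intro y _
  simp only [Pi.sub_apply, psi]
  ring

theorem int_psi : ∫ y in Ioi (0:ℝ), psi y * exp (-y) = 1 + eulerMascheroniConstant := by
  have h : ∫ y in Ioi (0:ℝ), psi y * exp (-y) =
      ∫ y in Ioi (0:ℝ), (y ^ 2 * exp (-y) - y * Real.log y * exp (-y)) := by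
    apply setIntegral_congr_fun measurableSet_Ioi
    intro y _
    simp only [psi]
    ring
  rw [h, integral_sub integrable_sq integrable_log, int_sq, int_log]
  ring

/-- the potential in the variable `u = exp (-y)` -/
noncomputable def psiU (u : ℝ) : ℝ := psi (-Real.log u)

theorem image_exp_neg : (fun y : ℝ => exp (-y)) '' (Ioi 0) = Ioo 0 1 := by
  ext u
  constructor
  · rintro ⟨y, hy, rfl⟩
    exact ⟨exp_pos _, by rw [exp_lt_one_iff]; have := mem_Ioi.mp hy; linarith⟩
  · rintro ⟨h0, h1⟩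
    refine ⟨-Real.log u, ?_, ?_⟩
    · have := Real.log_neg h0 h1
      exact mem_Ioi.mpr (by linarith)
    · simp [exp_log h0]

theorem injOn_exp_neg : InjOn (fun y : ℝ => exp (-y)) (Ioi 0) := by
  intro x _ y _ h
  have := exp_injective h
  linarith

theorem hasDeriv_exp_neg (y : ℝ) : HasDerivAt (fun y : ℝ => exp (-y)) (-exp (-y)) y := by
  have h := (hasDerivAt_neg y).exp
  simpa using h

theorem integrable_psiU : IntegrableOn psiU (Ioo 0 1) := by
  rw [← image_exp_neg, integrableOn_image_iff_integrableOn_abs_deriv_smul measurableSet_Ioi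
    (fun x _ => (hasDeriv_exp_neg x).hasDerivWithinAt) injOn_exp_neg]
  refine integrable_psi.congr_fun ?_ measurableSet_Ioi
  intro y _
  simp only [psiU, log_exp, neg_neg, smul_eq_mul, abs_neg, abs_exp]
  ring

theorem int_psiU_Ioo : ∫ u in Ioo (0:ℝ) 1, psiU u = 1 + eulerMascheroniConstant := by
  rw [← image_exp_neg, integral_image_eq_integral_abs_deriv_smul measurableSet_Ioi
    (fun x _ => (hasDeriv_exp_neg x).hasDerivWithinAt) injOn_exp_neg, ← int_psi]
  apply setIntegral_congr_fun measurableSet_Ioi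
  intro y _
  simp only [psiU, log_exp, neg_neg, smul_eq_mul, abs_neg, abs_exp]
  ring

theorem intervalIntegrable_psiU : IntervalIntegrable psiU volume 0 1 := by
  rw [intervalIntegrable_iff_integrableOn_Ioo_of_le zero_le_one]
  exact integrable_psiU

theorem int_psiU : ∫ u in (0:ℝ)..1, psiU u = 1 + eulerMascheroniConstant := by
  rw [intervalIntegral.integral_of_le zero_le_one, integral_Ioc_eq_integral_Ioo, int_psiU_Ioo]

theorem psi_nonneg {y : ℝ} (hy : 0 ≤ y) : 0 ≤ psi y := by
  unfold psi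
  have h := Real.log_le_self hy
  nlinarith [mul_le_mul_of_nonneg_left h hy]

theorem psi_zero : psi 0 = 0 := by simp [psi]

theorem psi_mono : MonotoneOn psi (Ici 0) := by
  have hc : Continuous psi := by
    unfold psi
    exact (continuous_pow 2).sub Real.continuous_mul_log
  apply monotoneOn_of_deriv_nonneg (convex_Ici 0) hc.continuousOn
  · intro y hy
    rw [interior_Ici] at hy
    have hy' : y ≠ 0 := ne_of_gt hy
    unfold psi
    exact ((differentiableAt_pow 2).sub
      (differentiableAt_id.mul (Real.differentiableAt_log hy'))).differentiableWithinAt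
  · intro y hy
    rw [interior_Ici] at hy
    have hy0 : 0 < y := hy
    have h1 : HasDerivAt psi (2 * y - (Real.log y + 1)) y := by
      have h2 := (hasDerivAt_pow 2 y).sub (Real.hasDerivAt_mul_log hy0.ne')
      have h4 : ((2 : ℕ) : ℝ) * y ^ (2 - 1) - (Real.log y + 1) = 2 * y - (Real.log y + 1) := by
        norm_num
      rw [h4] at h2
      exact h2
    rw [h1.deriv]
    have h3 := Real.add_one_le_exp (Real.log y)
    rw [exp_log hy0] at h3
    linarith

theorem psiU_antitone : AntitoneOn psiU (Ioc 0 1) := by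
  intro u hu v hv huv
  unfold psiU
  apply psi_mono
  · exact mem_Ici.mpr (by have := Real.log_nonpos hv.1.le hv.2; linarith)
  · exact mem_Ici.mpr (by have := Real.log_nonpos hu.1.le hu.2; linarith)
  · have := Real.log_le_log hu.1 huv
    linarith

theorem psiU_nonneg {u : ℝ} (h0 : 0 ≤ u) (h1 : u ≤ 1) : 0 ≤ psiU u := by
  unfold psiU
  apply psi_nonneg
  have := Real.log_nonpos h0 h1
  linarith

theorem psiU_one : psiU 1 = 0 := by simp [psiU, psi]

/-- upper Riemann bound -/
theorem riemann_le {N : ℕ} (hN : 1 ≤ N) :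
    (∑ a ∈ Finset.range N, psiU (((a : ℝ) + 1) / N)) / N ≤ 1 + eulerMascheroniConstant := by
  have hN' : (0 : ℝ) < N := by exact_mod_cast hN
  rw [← int_psiU]
  have hsum : ∫ u in (0:ℝ)..1, psiU u =
      ∑ a ∈ Finset.range N, ∫ u in ((a : ℝ) / N)..(((a : ℝ) + 1) / N), psiU u := by
    have h := intervalIntegral.sum_integral_adjacent_intervals (f := psiU) (μ := volume)
      (a := fun k : ℕ => (k : ℝ) / N) (n := N) (fun k hk => by
        apply intervalIntegrable_psiU.mono_set
        have e0 : (0 : ℝ) ≤ (k : ℝ) / N := by positivity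
        have e1 : ((k + 1 : ℕ) : ℝ) / N ≤ 1 := by
          rw [div_le_one hN']
          exact_mod_cast hk
        have e2 : (k : ℝ) / N ≤ ((k + 1 : ℕ) : ℝ) / N := by
          apply div_le_div_of_nonneg_right _ hN'.le
          push_cast
          linarith
        rw [uIcc_of_le e2, uIcc_of_le zero_le_one]
        exact Icc_subset_Icc e0 e1)
    simp only [Nat.cast_zero, zero_div, div_self hN'.ne'] at h
    rw [← h]
    apply Finset.sum_congr rfl
    intro a _
    push_cast
    rfl
  rw [hsum, Finset.sum_div]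
  apply Finset.sum_le_sum
  intro a ha
  have ha' := Finset.mem_range.mp ha
  have e1 : (((a : ℝ) + 1)) / N ≤ 1 := by
    rw [div_le_one hN']
    exact_mod_cast ha'
  have e2 : (a : ℝ) / N < ((a : ℝ) + 1) / N := by
    apply div_lt_div_of_pos_right _ hN'
    linarith
  have e0 : (0 : ℝ) ≤ (a : ℝ) / N := by positivity
  have hc : psiU (((a : ℝ) + 1) / N) / N =
      ∫ u in ((a : ℝ) / N)..(((a : ℝ) + 1) / N), psiU (((a : ℝ) + 1) / N) := by
    rw [intervalIntegral.integral_const, smul_eq_mul]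
    field_simp
    ring
  rw [hc]
  apply intervalIntegral.integral_mono_on_of_le_Ioo e2.le
  · exact intervalIntegrable_const
  · apply intervalIntegrable_psiU.mono_set
    rw [uIcc_of_le e2.le, uIcc_of_le zero_le_one]
    exact Icc_subset_Icc e0 e1
  · intro u hu
    exact psiU_antitone ⟨lt_of_le_of_lt e0 hu.1, hu.2.le.trans e1⟩
      ⟨lt_of_le_of_lt e0 e2, e1⟩ hu.2.le

/-- lower Riemann bound -/
theorem riemann_ge {N : ℕ} (hN : 1 ≤ N) :
    ∫ u in (1 / (N : ℝ))..1, psiU u ≤ (∑ a ∈ Finset.range N, psiU (((a : ℝ) + 1) / N)) / N := by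
  have hN' : (0 : ℝ) < N := by exact_mod_cast hN
  obtain ⟨m, rfl⟩ : ∃ m, N = m + 1 := ⟨N - 1, by omega⟩
  rw [Finset.sum_range_succ]
  have hone : ((m : ℝ) + 1) / ((m + 1 : ℕ) : ℝ) = 1 := by
    push_cast
    exact div_self (by positivity)
  rw [hone, psiU_one, add_zero]
  have hsum : ∫ u in (1 / ((m + 1 : ℕ) : ℝ))..1, psiU u =
      ∑ a ∈ Finset.range m, ∫ u in (((a : ℝ) + 1) / ((m + 1 : ℕ) : ℝ))..
        (((a : ℝ) + 2) / ((m + 1 : ℕ) : ℝ)), psiU u := by
    have h := intervalIntegral.sum_integral_adjacent_intervals (f := psiU) (μ := volume)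
      (a := fun k : ℕ => ((k : ℝ) + 1) / ((m + 1 : ℕ) : ℝ)) (n := m) (fun k hk => by
        apply intervalIntegrable_psiU.mono_set
        have e0 : (0 : ℝ) ≤ ((k : ℝ) + 1) / ((m + 1 : ℕ) : ℝ) := by positivity
        have e1 : (((k + 1 : ℕ) : ℝ) + 1) / ((m + 1 : ℕ) : ℝ) ≤ 1 := by
          rw [div_le_one hN']
          exact_mod_cast Nat.succ_le_succ hk
        have e2 : ((k : ℝ) + 1) / ((m + 1 : ℕ) : ℝ) ≤ (((k + 1 : ℕ) : ℝ) + 1) / ((m + 1 : ℕ) : ℝ) := by
          apply div_le_div_of_nonneg_right _ hN'.le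
          push_cast
          linarith
        rw [uIcc_of_le e2, uIcc_of_le zero_le_one]
        exact Icc_subset_Icc e0 e1)
    simp only [Nat.cast_zero, zero_add] at h
    rw [hone] at h
    rw [← h]
    apply Finset.sum_congr rfl
    intro a _
    congr 2
    push_cast
    ring
  rw [hsum, Finset.sum_div]
  apply Finset.sum_le_sum
  intro a ha
  have ha' := Finset.mem_range.mp ha
  have e1 : ((a : ℝ) + 2) / ((m + 1 : ℕ) : ℝ) ≤ 1 := by
    rw [div_le_one hN']
    have : (a : ℝ) + 1 ≤ m := by exact_mod_cast ha'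
    push_cast
    linarith
  have e2 : ((a : ℝ) + 1) / ((m + 1 : ℕ) : ℝ) < ((a : ℝ) + 2) / ((m + 1 : ℕ) : ℝ) := by
    apply div_lt_div_of_pos_right _ hN'
    linarith
  have e0 : (0 : ℝ) < ((a : ℝ) + 1) / ((m + 1 : ℕ) : ℝ) := by positivity
  have hc : psiU (((a : ℝ) + 1) / ((m + 1 : ℕ) : ℝ)) / ((m + 1 : ℕ) : ℝ) =
      ∫ u in (((a : ℝ) + 1) / ((m + 1 : ℕ) : ℝ))..(((a : ℝ) + 2) / ((m + 1 : ℕ) : ℝ)),
        psiU (((a : ℝ) + 1) / ((m + 1 : ℕ) : ℝ)) := by
    rw [intervalIntegral.integral_const, smul_eq_mul]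
    field_simp
    ring
  rw [hc]
  apply intervalIntegral.integral_mono_on_of_le_Ioo e2.le
  · apply intervalIntegrable_psiU.mono_set
    rw [uIcc_of_le e2.le, uIcc_of_le zero_le_one]
    exact Icc_subset_Icc e0.le e1
  · exact intervalIntegrable_const
  · intro u hu
    exact psiU_antitone ⟨e0, (e2.le).trans e1⟩ ⟨e0.trans hu.1, hu.2.le.trans e1⟩ hu.1.le

theorem tendsto_int_from :
    Tendsto (fun t : ℝ => ∫ u in t..1, psiU u) (𝓝[Icc 0 1] 0) (𝓝 (1 + eulerMascheroniConstant)) := by
  have h := intervalIntegral.continuousOn_primitive_interval_left (f := psiU) (a := 0) (b := 1)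
    (μ := volume) (by
      rw [uIcc_of_le zero_le_one, integrableOn_Icc_iff_integrableOn_Ioo]
      exact integrable_psiU)
  have h1 := h 0 (by rw [uIcc_of_le zero_le_one]; exact ⟨le_rfl, zero_le_one⟩)
  rw [uIcc_of_le zero_le_one] at h1
  have h2 : Tendsto (fun t : ℝ => ∫ u in t..1, psiU u) (𝓝[Icc 0 1] 0)
    (𝓝 (∫ u in (0:ℝ)..1, psiU u)) := h1
  rwa [int_psiU] at h2

theorem riemann_tendsto :
    Tendsto (fun N : ℕ => (∑ a ∈ Finset.range N, psiU (((a : ℝ) + 1) / N)) / N) atTop
      (𝓝 (1 + eulerMascheroniConstant)) := by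
  have h1 : Tendsto (fun N : ℕ => 1 / (N : ℝ)) atTop (𝓝[Icc 0 1] 0) := by
    apply tendsto_nhdsWithin_iff.mpr
    refine ⟨tendsto_one_div_atTop_nhds_zero_nat, ?_⟩
    filter_upwards [eventually_ge_atTop 1] with N hN
    have hN' : (1 : ℝ) ≤ N := by exact_mod_cast hN
    exact ⟨by positivity, by rw [div_le_one (by linarith)]; exact hN'⟩
  have h2 := tendsto_int_from.comp h1
  refine tendsto_of_tendsto_of_tendsto_of_le_of_le' h2 tendsto_const_nhds ?_ ?_
  · filter_upwards [eventually_ge_atTop 1] with N hN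
    exact riemann_ge hN
  · filter_upwards [eventually_ge_atTop 1] with N hN
    exact riemann_le hN

/-! ### the second form -/

theorem complex_int0 :
    ∫ t : ℝ in Ioi 0, ((t : ℂ) ^ ((1 : ℂ) - 1) * ((Real.log t : ℂ) * (Real.exp (-t) : ℂ))) =
      ((-eulerMascheroniConstant : ℝ) : ℂ) := by
  have h1 := Complex.hasDerivAt_GammaIntegral (s := 1) (by simp)
  have h3 : Complex.Gamma =ᶠ[𝓝 1] Complex.GammaIntegral := by
    have : IsOpen {s : ℂ | 0 < s.re} := Complex.continuous_re.isOpen_preimage _ isOpen_Ioi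
    filter_upwards [this.mem_nhds (show (1 : ℂ) ∈ {s : ℂ | 0 < s.re} by simp)] with s hs
    exact Complex.Gamma_eq_integral hs
  rw [(h1.congr_of_eventuallyEq h3).unique Complex.hasDerivAt_Gamma_one]
  push_cast
  rfl

theorem int_log0 :
    ∫ y in Ioi (0:ℝ), Real.log y * exp (-y) = -eulerMascheroniConstant := by
  have h := complex_int0
  have h1 : ∫ t : ℝ in Ioi 0, ((t : ℂ) ^ ((1 : ℂ) - 1) * ((Real.log t : ℂ) * (Real.exp (-t) : ℂ))) =
      ∫ t : ℝ in Ioi 0, ((Real.log t * Real.exp (-t) : ℝ) : ℂ) := by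
    apply setIntegral_congr_fun measurableSet_Ioi
    intro t _
    simp
  rw [h1, integral_complex_ofReal] at h
  exact_mod_cast h

theorem integrable_log0 : IntegrableOn (fun y : ℝ => Real.log y * exp (-y)) (Ioi 0) := by
  by_contra hcon
  have h := integral_undef hcon
  rw [int_log0] at h
  have := Real.one_half_lt_eulerMascheroniConstant
  linarith

theorem integrable_id : IntegrableOn (fun y : ℝ => y * exp (-y)) (Ioi 0) := by
  have h := Real.GammaIntegral_convergent (s := 2) (by norm_num)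
  refine h.congr_fun ?_ measurableSet_Ioi
  intro x hx
  have h2 : (2 : ℝ) - 1 = 1 := by norm_num
  simp only [h2, Real.rpow_one]
  ring

theorem int_id : ∫ y in Ioi (0:ℝ), y * exp (-y) = 1 := by
  have h := integral_rpow_exp 2 (by norm_num)
  have h2 : (2 : ℝ) - 1 = 1 := by norm_num
  rw [h2] at h
  simp only [Real.rpow_one] at h
  rw [h]
  have h3 : (2 : ℝ) = ((1 : ℕ) : ℝ) + 1 := by norm_num
  rw [h3, Real.Gamma_nat_eq_factorial]
  norm_num [Nat.factorial]

/-- `- log (- p log p)` in the variable `y = - log p` -/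
theorem int_sub_log : ∫ y in Ioi (0:ℝ), (y - Real.log y) * exp (-y) = 1 + eulerMascheroniConstant := by
  have h : ∫ y in Ioi (0:ℝ), (y - Real.log y) * exp (-y) =
      ∫ y in Ioi (0:ℝ), (y * exp (-y) - Real.log y * exp (-y)) := by
    apply setIntegral_congr_fun measurableSet_Ioi
    intro y _
    ring
  rw [h, integral_sub integrable_id integrable_log0, int_id, int_log0]
  ring

theorem integrable_sub_log : IntegrableOn (fun y : ℝ => (y - Real.log y) * exp (-y)) (Ioi 0) := by
  refine (integrable_id.sub integrable_log0).congr_fun ?_ measurableSet_Ioi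
  intro y _
  simp only [Pi.sub_apply]
  ring

/-- `- log (- p log p)` -/
noncomputable def lT (p : ℝ) : ℝ := -Real.log (-(p * Real.log p))

theorem lT_exp {y : ℝ} (hy : 0 < y) : lT (exp (-y)) = y - Real.log y := by
  unfold lT
  rw [log_exp, show -(exp (-y) * -y) = exp (-y) * y by ring,
    Real.log_mul (exp_pos _).ne' hy.ne', log_exp]
  ring

theorem integrable_lT : IntegrableOn lT (Ioo 0 1) := by
  rw [← image_exp_neg, integrableOn_image_iff_integrableOn_abs_deriv_smul measurableSet_Ioi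
    (fun x _ => (hasDeriv_exp_neg x).hasDerivWithinAt) injOn_exp_neg]
  refine integrable_sub_log.congr_fun ?_ measurableSet_Ioi
  intro y hy
  simp only [smul_eq_mul, abs_neg, abs_exp, lT_exp (mem_Ioi.mp hy)]
  ring

theorem int_lT_Ioo : ∫ u in Ioo (0:ℝ) 1, lT u = 1 + eulerMascheroniConstant := by
  rw [← image_exp_neg, integral_image_eq_integral_abs_deriv_smul measurableSet_Ioi
    (fun x _ => (hasDeriv_exp_neg x).hasDerivWithinAt) injOn_exp_neg, ← int_sub_log]
  apply setIntegral_congr_fun measurableSet_Ioi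
  intro y hy
  simp only [smul_eq_mul, abs_neg, abs_exp, lT_exp (mem_Ioi.mp hy)]
  ring

theorem intervalIntegrable_lT : IntervalIntegrable lT volume 0 1 := by
  rw [intervalIntegrable_iff_integrableOn_Ioo_of_le zero_le_one]
  exact integrable_lT

theorem int_lT : ∫ u in (0:ℝ)..1, lT u = 1 + eulerMascheroniConstant := by
  rw [intervalIntegral.integral_of_le zero_le_one, integral_Ioc_eq_integral_Ioo, int_lT_Ioo]

end Pool.Agent.Helper18.Sharp
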